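import Pool.Agent.Helper76.CQ.Defs

/-!
# CQ-8d: the Jacobian matrix of the frame equations is invertible modulo 5
-/

namespace Pool.Agent.Helper66.CQ

open Pool.Agent.Helper76.CY Pool.Agent.Helper76.CQ

/-- The table of the third derivatives of the form at the base point. -/
def tb (b c : Fin 10) : ℤ :=
  ((1377200088893771254607517827483570140654682305853230310202537998595594405536282809389077675436125138464173764634804127880 / 16 ^ (10 * b.val + c.val) % 16 : ℕ) : ℤ) - 8

/-- The table of the inverse modulo 5. -/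
def nb (r : Fin 10) (d o : Fin 9) : ℤ :=
  ((141482738172162725829369558312142091112045085527786285921189922626099680939619856848395738739899049506437614981563605738794488460196866321271017808302855288621333735451549763598370858955294126057197695535275353595468658056498982466505063452612001810344410793328251494453949415556228490635284145053923171735736518986186832385510046303565555135211136109471129282955675827749699698797153421349070038093055911707163071132037599700245998771275143435908094446892236714551842339433645463259316993923320727010069185942374746061561758987622066293255409933808072957870125195983834664967956055995127717764286663281054834951638708871910259257044135455053585164912341204369770804992555703256472887520461790568934491526908313977475224287000205532 / 8 ^ (81 * r.val + 9 * d.val + o.val) % 8 : ℕ) : ℤ)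

theorem D0Z_tb (b c : Fin 10) : D0Z 0 b c = tb b c := by
  revert b c
  decide +kernel

theorem sym3_shift (p q r i j k s : Fin 10) :
    sym3 (p + s) (q + s) (r + s) (i + s) (j + s) (k + s) = sym3 p q r i j k := by
  simp only [sym3, add_left_inj]

theorem orb_shift (a b i j k s : Fin 10) : orb a b (i + s) (j + s) (k + s) = orb a b i j k := by
  simp only [orb]
  rw [← Equiv.sum_comp (Equiv.addRight s)]
  refine Finset.sum_congr rfl fun l _ => ?_
  rw [Equiv.coe_addRight, add_right_comm l s a, add_right_comm l s b, sym3_shift]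

theorem D0Z_shift (i j k s : Fin 10) : D0Z (i + s) (j + s) (k + s) = D0Z i j k := by
  simp only [D0Z, orb_shift]

theorem D0Z_eq (i j k : Fin 10) : D0Z i j k = tb (j - i) (k - i) := by
  rw [← D0Z_tb, ← D0Z_shift 0 (j - i) (k - i) i, zero_add, sub_add_cancel, sub_add_cancel]

/-- The candidate for the inverse modulo 5. -/
def NJ : Matrix (Fin 10 × Fin 9) (Fin 10 × Fin 9) ℤ := fun p q => nb (p.1 - q.1) p.2 q.2

/-- One term of the product. -/
def term (l : Fin 10) (o' o : Fin 9) (d : Fin 9) : ℤ :=
  tb ((mon9 o').1 - (Fin.castSucc d + 1)) ((mon9 o').2 - (Fin.castSucc d + 1)) * nb l d o +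
  tb ((mon9 o').1 + (Fin.castSucc d + 1)) ((mon9 o').2) * nb (l + (mon9 o').1) d o +
  tb ((mon9 o').1) ((mon9 o').2 + (Fin.castSucc d + 1)) * nb (l + (mon9 o').2) d o

theorem check : ∀ (l : Fin 10) (o' o : Fin 9),
    (term l o' o 0 + term l o' o 1 + term l o' o 2 + term l o' o 3 + term l o' o 4 +
      term l o' o 5 + term l o' o 6 + term l o' o 7 + term l o' o 8) % 5 =
      if l = 0 ∧ o' = o then 1 else 0 := by
  decide +kernel

theorem mul_term (p q : Fin 10 × Fin 9) : (J0 * NJ) p q =
    ∑ d : Fin 9, term (p.1 - q.1) p.2 q.2 d := by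
  rw [Matrix.mul_apply, Fintype.sum_prod_type, Finset.sum_comm]
  refine Finset.sum_congr rfl fun d _ => ?_
  simp only [J0, NJ, add_mul, Finset.sum_add_distrib, ite_mul, zero_mul, Finset.sum_ite_eq,
    Finset.mem_univ, if_true, D0Z_eq, term]
  congr 1
  · congr 1
    · congr 1
      · congr 1 <;> abel
    · congr 1
      · congr 1 <;> abel
      · congr 1
        abel
  · congr 1
    · congr 1 <;> abel
    · congr 1
      abel

theorem det_J0 : J0.det ≠ 0 := by
  intro h0
  have h1 : (J0.map (Int.cast : ℤ → ZMod 5)) * (NJ.map (Int.cast : ℤ → ZMod 5)) = 1 := by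
    have h2 : (J0.map (Int.cast : ℤ → ZMod 5)) * (NJ.map (Int.cast : ℤ → ZMod 5))
        = (J0 * NJ).map (Int.castRingHom (ZMod 5)) := by
      rw [Matrix.map_mul]
      rfl
    rw [h2]
    refine Matrix.ext fun p q => ?_
    rw [Matrix.map_apply, mul_term, Matrix.one_apply]
    have h3 := check (p.1 - q.1) p.2 q.2
    have h4 : (∑ d : Fin 9, term (p.1 - q.1) p.2 q.2 d) =
        term (p.1 - q.1) p.2 q.2 0 + term (p.1 - q.1) p.2 q.2 1 + term (p.1 - q.1) p.2 q.2 2 +
        term (p.1 - q.1) p.2 q.2 3 + term (p.1 - q.1) p.2 q.2 4 + term (p.1 - q.1) p.2 q.2 5 +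
        term (p.1 - q.1) p.2 q.2 6 + term (p.1 - q.1) p.2 q.2 7 + term (p.1 - q.1) p.2 q.2 8 := by
      rw [Fin.sum_univ_castSucc, Fin.sum_univ_eight]
      rfl
    rw [h4]
    set X : ℤ := term (p.1 - q.1) p.2 q.2 0 + term (p.1 - q.1) p.2 q.2 1 +
      term (p.1 - q.1) p.2 q.2 2 + term (p.1 - q.1) p.2 q.2 3 + term (p.1 - q.1) p.2 q.2 4 +
      term (p.1 - q.1) p.2 q.2 5 + term (p.1 - q.1) p.2 q.2 6 + term (p.1 - q.1) p.2 q.2 7 +
      term (p.1 - q.1) p.2 q.2 8 with hX
    have h5 : (if p.1 - q.1 = 0 ∧ p.2 = q.2 then (1 : ℤ) else 0) = if p = q then 1 else 0 := by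
      simp only [sub_eq_zero, Prod.ext_iff]
    rw [h5] at h3
    have h6 : (X : ZMod 5) = ((if p = q then (1 : ℤ) else 0 : ℤ) : ZMod 5) := by
      have h7 : X ≡ (if p = q then (1 : ℤ) else 0) [ZMOD (5 : ℕ)] := by
        rw [Int.ModEq, Nat.cast_ofNat, h3]
        split_ifs <;> norm_num
      exact (ZMod.intCast_eq_intCast_iff _ _ 5).2 h7
    change (X : ZMod 5) = _
    rw [h6]
    split_ifs <;> simp
  have h2 := congrArg Matrix.det h1
  rw [Matrix.det_mul, Matrix.det_one] at h2
  have h3 : (J0.map (Int.cast : ℤ → ZMod 5)).det = ((J0.det : ℤ) : ZMod 5) :=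
    ((Int.castRingHom (ZMod 5)).map_det J0).symm
  rw [h3, h0, Int.cast_zero, zero_mul] at h2
  exact absurd h2 (by decide)

end Pool.Agent.Helper66.CQ
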