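import Pool.Agent.Helper76.CQ.Defs
import Pool.Agent.Helper24.CQ.AlgInverse
import Pool.Agent.Helper66.CQ.DetJ

/-!
# CQ-11a: the frame of a periodic plane
-/

namespace Pool.Agent.Helper66.CQ

open MvPolynomial Pool.Agent.Helper76.CY Pool.Agent.Helper76.CQ Filter Topology

/-- The variables: the coefficients of the tensor and the entries of the frame. -/
abbrev VI : Type := (Fin 10 × Fin 10 × Fin 10) ⊕ (Fin 10 × Fin 9)

/-- The universal frame. -/
noncomputable def uf (l j : Fin 10) : MvPolynomial VI ℚ := frame (fun q => X (Sum.inr q)) l j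

/-- The equations. -/
noncomputable def kp (p : Fin 10 × Fin 9) : MvPolynomial VI ℚ :=
  ∑ i, ∑ j, ∑ k, X (Sum.inl (i, j, k)) * uf p.1 i * uf (p.1 + (mon9 p.2).1) j *
    uf (p.1 + (mon9 p.2).2) k

/-- The polynomial map. -/
noncomputable def GG : VI → MvPolynomial VI ℚ := Sum.elim (fun t => X (Sum.inl t)) kp

theorem aeval_uf (x : VI → ℚ_[2]) (l j : Fin 10) :
    aeval x (uf l j) = frame (fun q => x (Sum.inr q)) l j := by
  simp only [uf, frame, map_add, map_sum]
  congr 1
  · split_ifs <;> simp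
  · refine Finset.sum_congr rfl fun d _ => ?_
    split_ifs <;> simp

theorem aeval_kp (x : VI → ℚ_[2]) (p : Fin 10 × Fin 9) :
    aeval x (kp p) = ∑ i, ∑ j, ∑ k, x (Sum.inl (i, j, k)) *
      frame (fun q => x (Sum.inr q)) p.1 i *
      frame (fun q => x (Sum.inr q)) (p.1 + (mon9 p.2).1) j *
      frame (fun q => x (Sum.inr q)) (p.1 + (mon9 p.2).2) k := by
  simp only [kp, map_sum, map_mul, aeval_X, aeval_uf]

theorem pderiv_uf (r : Fin 10 × Fin 9) (l j : Fin 10) :
    pderiv (Sum.inr r) (uf l j) = if l = r.1 ∧ j = r.1 + (Fin.castSucc r.2 + 1) then 1 else 0 := by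
  have h1 : ∀ d : Fin 9, pderiv (Sum.inr r)
      (if j = l + (Fin.castSucc d + 1) then (X (Sum.inr (l, d)) : MvPolynomial VI ℚ) else 0) =
      if d = r.2 then (if l = r.1 ∧ j = r.1 + (Fin.castSucc r.2 + 1) then 1 else 0) else 0 := by
    intro d
    by_cases hd : d = r.2
    · subst hd
      rw [if_pos rfl]
      by_cases hl : l = r.1
      · subst hl
        by_cases hj : j = r.1 + (Fin.castSucc r.2 + 1)
        · rw [if_pos hj, if_pos ⟨rfl, hj⟩, pderiv_X_self]
        · rw [if_neg hj, if_neg (fun h => hj h.2), map_zero]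
      · rw [if_neg (c := l = r.1 ∧ j = r.1 + (Fin.castSucc r.2 + 1)) (fun h => hl h.1)]
        split_ifs
        · rw [pderiv_X_of_ne]
          intro h
          exact hl (Prod.ext_iff.1 (Sum.inr_injective h)).1
        · exact map_zero _
    · rw [if_neg hd]
      split_ifs
      · rw [pderiv_X_of_ne]
        intro h
        exact hd (Prod.ext_iff.1 (Sum.inr_injective h)).2
      · exact map_zero _
  have h0 : pderiv (Sum.inr r) (if j = l then (1 : MvPolynomial VI ℚ) else 0) = 0 := by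
    split_ifs
    · exact pderiv_one
    · exact map_zero _
  simp only [uf, frame, map_add, map_sum]
  rw [h0, zero_add, Finset.sum_congr rfl fun d _ => h1 d, Finset.sum_ite_eq' Finset.univ r.2]
  simp

/-- The base point. -/
noncomputable def xb : VI → ℚ_[2] := Sum.elim (fun t => D0 ℚ_[2] t.1 t.2.1 t.2.2) (fun _ => 0)

theorem aeval_uf_xb (l j : Fin 10) : aeval xb (uf l j) = if j = l then 1 else 0 := by
  rw [aeval_uf]
  simp [frame, xb]

theorem jac_inr (p r : Fin 10 × Fin 9) :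
    aeval xb (pderiv (Sum.inr r) (kp p)) = ((J0 p r : ℤ) : ℚ_[2]) := by
  have h1 : ∀ t : Fin 10 × Fin 10 × Fin 10,
      pderiv (Sum.inr r) (X (Sum.inl t) : MvPolynomial VI ℚ) = 0 := fun t =>
    pderiv_X_of_ne (by simp)
  have h2 : ∀ l j, aeval xb (pderiv (Sum.inr r) (uf l j)) =
      if l = r.1 ∧ j = r.1 + (Fin.castSucc r.2 + 1) then (1 : ℚ_[2]) else 0 := by
    intro l j
    rw [pderiv_uf]
    split_ifs <;> simp
  have h3 : aeval xb (pderiv (Sum.inr r) (kp p)) = ∑ i, ∑ j, ∑ k,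
      (D0 ℚ_[2] i j k *
        (if p.1 = r.1 ∧ i = r.1 + (Fin.castSucc r.2 + 1) then (1 : ℚ_[2]) else 0) *
        (if j = p.1 + (mon9 p.2).1 then 1 else 0) * (if k = p.1 + (mon9 p.2).2 then 1 else 0) +
      D0 ℚ_[2] i j k * (if i = p.1 then 1 else 0) *
        (if p.1 + (mon9 p.2).1 = r.1 ∧ j = r.1 + (Fin.castSucc r.2 + 1) then (1 : ℚ_[2]) else 0) *
        (if k = p.1 + (mon9 p.2).2 then 1 else 0) +
      D0 ℚ_[2] i j k * (if i = p.1 then 1 else 0) * (if j = p.1 + (mon9 p.2).1 then 1 else 0) *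
        (if p.1 + (mon9 p.2).2 = r.1 ∧ k = r.1 + (Fin.castSucc r.2 + 1) then (1 : ℚ_[2])
          else 0)) := by
    simp only [kp, map_sum, Derivation.leibniz, h1, smul_eq_mul, map_add, map_mul, aeval_X,
      aeval_uf_xb, h2, mul_zero, add_zero]
    refine Finset.sum_congr rfl fun i _ => Finset.sum_congr rfl fun j _ =>
      Finset.sum_congr rfl fun k _ => ?_
    simp only [xb, Sum.elim_inl]
    ring
  rw [h3]
  have h4 : ∀ (a : Prop) [Decidable a] (i c : Fin 10),
      (if a ∧ i = c then (1 : ℚ_[2]) else 0) = (if a then 1 else 0) * (if i = c then 1 else 0) := by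
    intro a _ i c
    by_cases ha : a <;> by_cases hi : i = c <;> simp [ha, hi]
  simp only [h4, Finset.sum_add_distrib, mul_ite, mul_one, mul_zero,
    Finset.sum_ite_eq', Finset.mem_univ, if_true]
  simp only [J0, D0]
  push_cast
  congr 1
  · congr 1
    split_ifs <;> simp
  · split_ifs <;> simp

theorem D0_mon (p : Fin 10 × Fin 9) :
    D0Z p.1 (p.1 + (mon9 p.2).1) (p.1 + (mon9 p.2).2) = 0 := by
  rw [D0Z_eq, add_sub_cancel_left, add_sub_cancel_left]
  have h : ∀ q : Fin 9, tb (mon9 q).1 (mon9 q).2 = 0 := by decide +kernel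
  exact h p.2

theorem kp_xb (p : Fin 10 × Fin 9) : aeval xb (kp p) = 0 := by
  rw [aeval_kp]
  have h : ∀ l j, frame (fun q => xb (Sum.inr q)) l j = if j = l then (1 : ℚ_[2]) else 0 := by
    intro l j
    simp [frame, xb]
  simp only [h, mul_ite, mul_one, mul_zero, Finset.sum_ite_eq', Finset.mem_univ, if_true]
  simp only [xb, Sum.elim_inl, D0, D0_mon, Int.cast_zero]

theorem jac_det : (Matrix.of fun i j => aeval xb (pderiv j (GG i))).det ≠ 0 := by
  have h1 : (Matrix.of fun i j => aeval xb (pderiv j (GG i))) =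
      Matrix.fromBlocks 1 0 (Matrix.of fun p t => aeval xb (pderiv (Sum.inl t) (kp p)))
        (J0.map (Int.cast : ℤ → ℚ_[2])) := by
    ext i j
    rcases i with s | p <;> rcases j with t | r
    · simp only [Matrix.of_apply, GG, Sum.elim_inl, Matrix.fromBlocks_apply₁₁, Matrix.one_apply]
      by_cases h : s = t
      · subst h
        rw [pderiv_X_self, if_pos rfl, map_one]
      · rw [pderiv_X_of_ne (fun h' => h (Sum.inl_injective h')), if_neg h, map_zero]
    · simp only [Matrix.of_apply, GG, Sum.elim_inl, Matrix.fromBlocks_apply₁₂, Matrix.zero_apply]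
      rw [pderiv_X_of_ne (by simp), map_zero]
    · simp only [Matrix.of_apply, GG, Sum.elim_inr, Matrix.fromBlocks_apply₂₁]
    · simp only [Matrix.of_apply, GG, Sum.elim_inr, Matrix.fromBlocks_apply₂₂, Matrix.map_apply]
      exact jac_inr p r
  rw [h1, Matrix.det_fromBlocks_zero₁₂, Matrix.det_one, one_mul]
  have h2 : (J0.map (Int.cast : ℤ → ℚ_[2])).det = ((J0.det : ℤ) : ℚ_[2]) :=
    ((Int.castRingHom ℚ_[2]).map_det J0).symm
  rw [h2]
  exact_mod_cast det_J0

theorem exists_frame (ε : ℝ) (hε : 0 < ε) : ∃ δ > 0, ∀ D : Ten ℚ,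
    (∀ i j k, ‖(D i j k : ℚ_[2]) - D0 ℚ_[2] i j k‖ < δ) →
    ∃ Γ : Fin 10 × Fin 9 → ℚ_[2], (∀ p, ‖Γ p‖ < ε) ∧ (∀ p, IsAlgebraic ℚ (Γ p)) ∧
      ∀ p, kill D Γ p = 0 := by
  obtain ⟨W, hW, h⟩ := Pool.Agent.Helper24.CQ.alg_inverse GG xb jac_det
    (Metric.ball xb ε) (Metric.ball_mem_nhds xb hε)
  obtain ⟨δ, hδ, hb⟩ := Metric.mem_nhds_iff.1 hW
  refine ⟨δ, hδ, fun D hD => ?_⟩
  obtain ⟨y, hyU, hy, halg⟩ := h (Sum.elim (fun t => D t.1 t.2.1 t.2.2) fun _ => 0) (hb (by
    rw [Metric.mem_ball, dist_pi_lt_iff hδ]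
    rintro (t | p)
    · simp only [Sum.elim_inl, GG, aeval_X, xb, dist_eq_norm]
      exact hD _ _ _
    · simp only [Sum.elim_inr, GG, kp_xb, map_zero, dist_self]
      exact hδ))
  refine ⟨fun q => y (Sum.inr q), fun p => ?_, fun p => halg _, fun p => ?_⟩
  · rw [Metric.mem_ball, dist_pi_lt_iff hε] at hyU
    have h1 := hyU (Sum.inr p)
    rwa [dist_eq_norm, xb, Sum.elim_inr, sub_zero] at h1
  · have h1 := hy (Sum.inr p)
    simp only [GG, Sum.elim_inr, map_zero] at h1
    rw [← h1, aeval_kp]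
    simp only [kill, tri]
    refine Finset.sum_congr rfl fun i _ => Finset.sum_congr rfl fun j _ =>
      Finset.sum_congr rfl fun k _ => ?_
    have h2 := hy (Sum.inl (i, j, k))
    simp only [GG, Sum.elim_inl, aeval_X] at h2
    rw [h2]

end Pool.Agent.Helper66.CQ
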